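import Mathlib
import Pool.Agent.X260.Wr

/-!
# Unimodular equations over solvable groups without solutions of the same derived length
-/

set_option autoImplicit false

namespace Pool.Agent.Results.MP_82f72d_al.NoSolutionSameLength

open Pool.Agent.X260.Wr
open scoped commutatorElement

/-! ### the base case: the Frobenius group of order 42 -/

abbrev C7 := Multiplicative (ZMod 7)
abbrev C6 := Multiplicative (ZMod 6)

def act : C6 →* MulAut C7 where
  toFun k :=
    { toFun := fun n => n ^ (3 ^ (Multiplicative.toAdd k).val)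
      invFun := fun n => n ^ (5 ^ (Multiplicative.toAdd k).val)
      left_inv := by revert k; decide +kernel
      right_inv := by revert k; decide +kernel
      map_mul' := fun x y => mul_pow x y _ }
  map_one' := by
    apply MulEquiv.ext
    decide +kernel
  map_mul' := by
    intro k l
    apply MulEquiv.ext
    revert k l; decide +kernel

abbrev G0 := C7 ⋊[act] C6
def a0 : G0 := SemidirectProduct.inr (Multiplicative.ofAdd 1)
def c0 : G0 := SemidirectProduct.inl (Multiplicative.ofAdd 1)

theorem base_dat : Dat G0 0 a0 c0 where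
  der := by
    have h1 : derivedSeries G0 1 ≤ (SemidirectProduct.inl : C7 →* G0).range := by
      rw [derivedSeries_succ, derivedSeries_zero, Subgroup.commutator_le]
      intro a _ b _
      rw [SemidirectProduct.range_inl_eq_ker_rightHom, MonoidHom.mem_ker]
      simp [commutatorElement_def, mul_comm]
    rw [eq_bot_iff, derivedSeries_succ, Subgroup.commutator_le]
    intro a ha b hb
    obtain ⟨x, rfl⟩ := h1 ha
    obtain ⟨y, rfl⟩ := h1 hb
    rw [Subgroup.mem_bot, commutatorElement_eq_one_iff_mul_comm, ← map_mul, ← map_mul, mul_comm]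
  hg := by rw [derivedSeries_zero]; exact Subgroup.mem_top _
  hc := by
    rw [derivedSeries_succ, derivedSeries_zero]
    have : c0 = ⁅c0⁻¹, a0⁻¹⁆ ^ 2 := by decide +kernel
    rw [this]
    exact pow_mem (Subgroup.commutator_mem_commutator (Subgroup.mem_top _) (Subgroup.mem_top _)) 2
  g6 := by decide +kernel
  c7 := by decide +kernel
  c1 := by decide +kernel
  gc := by decide +kernel

/-! ### equations -/

universe u

/-- The exponent sum of the unknown: the homomorphism `G * ⟨x⟩ → ⟨x⟩` killing `G`. -/
def expSum (G : Type) [Group G] : Monoid.Coprod G (Multiplicative ℤ) →* Multiplicative ℤ :=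
  Monoid.Coprod.lift 1 (MonoidHom.id _)

/-- The value `w(h)` of `w ∈ G * ⟨x⟩` in a group `H` containing `G` via `φ`. -/
def eval {G : Type} [Group G] {H : Type u} [Group H] (φ : G →* H) (h : H) :
    Monoid.Coprod G (Multiplicative ℤ) →* H :=
  Monoid.Coprod.lift φ (zpowersHom H h)

/-- **For every `d ≥ 2` (in particular for every `d ≥ 3`) there are a solvable group `G` of
derived length exactly `d` and a unimodular equation `w(x) = 1` over `G` (exponent sum 1) that has
no solution in any group `H` containing `G` with `H^{(d)} = 1`.** -/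
theorem result (d : ℕ) (hd : 2 ≤ d) :
    ∃ (G : Type) (_ : Group G), derivedSeries G d = ⊥ ∧ derivedSeries G (d - 1) ≠ ⊥ ∧
      ∃ w : Monoid.Coprod G (Multiplicative ℤ), expSum G w = Multiplicative.ofAdd 1 ∧
        ∀ (H : Type u) [Group H] (φ : G →* H), Function.Injective φ → derivedSeries H d = ⊥ →
          ∀ h : H, eval φ h w ≠ 1 := by
  obtain ⟨e, rfl⟩ : ∃ e, d = e + 2 := ⟨d - 2, by omega⟩
  obtain ⟨G, _, g, c, hD⟩ := exists_dat base_dat e
  refine ⟨G, inferInstance, hD.der, ?_, ?_⟩
  · intro h
    have h1 := hD.hc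
    have h2 : e + 2 - 1 = e + 1 := rfl
    rw [h2] at h
    rw [h, Subgroup.mem_bot] at h1
    exact hD.c1 h1
  · let X : Monoid.Coprod G (Multiplicative ℤ) := Monoid.Coprod.inr (Multiplicative.ofAdd 1)
    let A : G → Monoid.Coprod G (Multiplicative ℤ) := Monoid.Coprod.inl
    refine ⟨X * (A g⁻¹ * X⁻¹ * A g) * (A (g ^ 2)⁻¹ * X * A (g ^ 2)) * A c⁻¹, ?_, ?_⟩
    · simp only [X, A, expSum, map_mul, map_inv, Monoid.Coprod.lift_apply_inl,
        Monoid.Coprod.lift_apply_inr, MonoidHom.one_apply, MonoidHom.id_apply]
      simp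
    · intro H _ φ hφ hH h he
      have h1 : h * ((φ g)⁻¹ * h⁻¹ * φ g) * ((φ g ^ 2)⁻¹ * h * φ g ^ 2) * (φ c)⁻¹ = 1 := by
        rw [← he]
        simp only [X, A, eval, map_mul, map_inv, map_pow, Monoid.Coprod.lift_apply_inl,
          Monoid.Coprod.lift_apply_inr]
        simp
      rw [mul_inv_eq_one] at h1
      have h2 := no_sol (d := e) hH
        (map_derivedSeries_le_derivedSeries φ e ⟨g, hD.hg, rfl⟩)
        (map_derivedSeries_le_derivedSeries φ (e + 1) ⟨c, hD.hc, rfl⟩)
        (by rw [← map_pow, hD.g6, map_one]) (by rw [← map_pow, hD.c7, map_one])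
        (by rw [← map_inv, ← map_mul, ← map_mul, hD.gc, map_pow]) h1
      exact hD.c1 (hφ (by rw [h2, map_one]))

end Pool.Agent.Results.MP_82f72d_al.NoSolutionSameLength
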